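import Pool.Agent.FHQ.StmtsO

/-! Squad FHQ, row LEX: lexicographic comparison. -/

namespace Pool.Agent.FHQ.H13

open Pool.Agent.FHQ

section

variable {D m : ℕ} {G : (Fin D → Fin m) → ℤ}

/-- monotone in the product order -/
theorem lex_mono (hmono : ∀ (j : Fin D) (η η' : Fin D → Fin m), (∀ i, i ≠ j → η i = η' i) →
    η j < η' j → G η ≤ G η') (η η' : Fin D → Fin m) (h : ∀ j, η j ≤ η' j) : G η ≤ G η' := by
  classical
  have key : ∀ T : Finset (Fin D), G η ≤ G (T.piecewise η' η) := by
    intro T
    induction T using Finset.induction_on with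
    | empty => simp
    | insert j T hj ih =>
      refine ih.trans ?_
      rw [Finset.piecewise_insert]
      rcases eq_or_lt_of_le (h j) with h1 | h1
      · have : Function.update (T.piecewise η' η) j (η' j) = T.piecewise η' η := by
          rw [← h1]
          have h2 : η j = T.piecewise η' η j := by simp [Finset.piecewise, hj]
          rw [h2, Function.update_eq_self]
        rw [this]
      · apply hmono j
        · intro i hi
          rw [Function.update_of_ne hi]
        · rw [Function.update_self]
          simpa [Finset.piecewise, hj] using h1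
  have h2 := key Finset.univ
  rwa [Finset.piecewise_univ] at h2

/-- independent of the coordinates outside of `V` -/
theorem lex_out {V : Finset (Fin D)} (heq : ∀ j, j ∉ V → ∀ (η η' : Fin D → Fin m),
    (∀ i, i ≠ j → η i = η' i) → G η = G η') (η η' : Fin D → Fin m) (h : ∀ j ∈ V, η j = η' j) :
    G η = G η' := by
  classical
  have key : ∀ T : Finset (Fin D), (∀ j ∈ T, j ∉ V) → G η = G (T.piecewise η' η) := by
    intro T
    induction T using Finset.induction_on with
    | empty => intro _; simp
    | insert j T hj ih =>
      intro hT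
      rw [ih (fun i hi => hT i (Finset.mem_insert_of_mem hi)), Finset.piecewise_insert]
      apply heq j (hT j (Finset.mem_insert_self j T))
      intro i hi
      rw [Function.update_of_ne hi]
  have h2 := key (Finset.univ \ V) (fun j hj => (Finset.mem_sdiff.mp hj).2)
  rw [h2]
  congr 1
  funext j
  by_cases hj : j ∈ V
  · simp [Finset.piecewise, hj, h j hj]
  · simp [Finset.piecewise, hj]

end

theorem lex (hHOM : HomStmt) : LexStmt := by
  classical
  intro D n'
  obtain ⟨n, hn⟩ := hHOM D (D * n' + 2)
  refine ⟨n, fun γ => ?_⟩
  obtain ⟨s', hs', hhom', hmono'⟩ := hn γ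
  obtain ⟨G, hG⟩ : ∃ G : (Fin D → Fin (D * n' + 2)) → ℤ, G = fun η => γ (sg s' η) := ⟨_, rfl⟩
  have hhom : ∀ η η' ζ ζ' : Fin D → Fin (D * n' + 2),
      (∀ j, (η j < η' j ↔ ζ j < ζ' j) ∧ (η' j < η j ↔ ζ' j < ζ j)) →
      (G η < G η' ↔ G ζ < G ζ') := by
    rw [hG]
    exact hhom'
  have hmono : ∀ (j : Fin D) (η η' : Fin D → Fin (D * n' + 2)), (∀ i, i ≠ j → η i = η' i) →
      η j < η' j → G η ≤ G η' := by
    rw [hG]
    exact hmono'
  obtain ⟨V, hV⟩ : ∃ V : Finset (Fin D), ∀ j, j ∈ V ↔ ∃ η η' : Fin D → Fin (D * n' + 2),
      (∀ i, i ≠ j → η i = η' i) ∧ η j < η' j ∧ G η < G η' :=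
    ⟨Finset.univ.filter (fun j => ∃ η η' : Fin D → Fin (D * n' + 2),
      (∀ i, i ≠ j → η i = η' i) ∧ η j < η' j ∧ G η < G η'), fun j => by simp⟩
  -- homogeneity for one coordinate
  have hone : ∀ (j : Fin D) (η η' ζ ζ' : Fin D → Fin (D * n' + 2)),
      (∀ i, i ≠ j → η i = η' i) → η j < η' j → (∀ i, i ≠ j → ζ i = ζ' i) → ζ j < ζ' j →
      (G η < G η' ↔ G ζ < G ζ') := by
    intro j η η' ζ ζ' h1 h2 h3 h4
    apply hhom
    intro i
    by_cases hi : i = j
    · subst hi
      exact ⟨⟨fun _ => h4, fun _ => h2⟩,
        ⟨fun h => absurd h (not_lt.mpr h2.le), fun h => absurd h (not_lt.mpr h4.le)⟩⟩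
    · rw [h1 i hi, h3 i hi]
      exact ⟨⟨fun h => absurd h (lt_irrefl _), fun h => absurd h (lt_irrefl _)⟩,
        ⟨fun h => absurd h (lt_irrefl _), fun h => absurd h (lt_irrefl _)⟩⟩
  have hup : ∀ j ∈ V, ∀ η η' : Fin D → Fin (D * n' + 2), (∀ i, i ≠ j → η i = η' i) →
      η j < η' j → G η < G η' := by
    intro j hj η η' h1 h2
    obtain ⟨ζ, ζ', h3, h4, h5⟩ := (hV j).mp hj
    exact (hone j η η' ζ ζ' h1 h2 h3 h4).mpr h5
  have heq1 : ∀ j, j ∉ V → ∀ (η η' : Fin D → Fin (D * n' + 2)),
      (∀ i, i ≠ j → η i = η' i) → η j < η' j → G η = G η' := by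
    intro j hj η η' h1 h2
    apply le_antisymm (hmono j η η' h1 h2)
    rw [← not_lt]
    intro h3
    exact hj ((hV j).mpr ⟨η, η', h1, h2, h3⟩)
  have heq : ∀ j, j ∉ V → ∀ (η η' : Fin D → Fin (D * n' + 2)),
      (∀ i, i ≠ j → η i = η' i) → G η = G η' := by
    intro j hj η η' h1
    rcases lt_trichotomy (η j) (η' j) with h2 | h2 | h2
    · exact heq1 j hj η η' h1 h2
    · congr 1
      funext i
      by_cases hi : i = j
      · rw [hi, h2]
      · exact h1 i hi
    · exact (heq1 j hj η' η (fun i hi => (h1 i hi).symm) h2).symm
  have hle := lex_mono hmono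
  -- the scaled grid
  have hlt : ∀ a : Fin n', D * (a : ℕ) < D * n' + 2 := by
    intro a
    have : D * (a : ℕ) ≤ D * n' := Nat.mul_le_mul_left D a.isLt.le
    omega
  refine ⟨fun j a => s' j ⟨D * (a : ℕ), hlt a⟩, V, ?_, ?_⟩
  · intro j a b hab
    have h1 := hs' j hab
    have h2 : D * (a : ℕ) = D * (b : ℕ) := congrArg Fin.val h1
    have hD : 0 < D := lt_of_le_of_lt (Nat.zero_le _) j.isLt
    exact Fin.ext (Nat.eq_of_mul_eq_mul_left hD h2)
  · have hγ : (fun η : Fin D → Fin n' => γ (sg (fun j a => s' j ⟨D * (a : ℕ), hlt a⟩) η)) =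
        fun η => G (fun j => ⟨D * (η j : ℕ), hlt (η j)⟩) := by
      rw [hG]
      rfl
    rw [hγ]
    refine ⟨?_, ?_, ?_⟩
    · intro η η' h
      apply lex_out heq
      intro j hj
      simp only [h j hj]
    · intro j hj η η' h1 h2
      apply hup j hj
      · intro i hi
        simp only [h1 i hi]
      · have hD : 0 < D := lt_of_le_of_lt (Nat.zero_le _) j.isLt
        show D * (η j : ℕ) < D * (η' j : ℕ)
        exact Nat.mul_lt_mul_of_pos_left h2 hD
    · by_cases hVe : V = ∅
      · exact Or.inl hVe
      right
      obtain ⟨i, hi, himax⟩ := Finset.exists_max_image V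
        (fun j => G (fun l => if l = j then ⟨1, by omega⟩ else ⟨0, by omega⟩))
        (Finset.nonempty_iff_ne_empty.mpr hVe)
      refine ⟨i, hi, ?_⟩
      -- the exchange
      have hex : ∀ j ∈ V, j ≠ i → ∀ u u' : Fin D → Fin (D * n' + 2),
          (∀ l, l ≠ i → l ≠ j → u l = u' l) → u i < u' i → u' j < u j → G u ≤ G u' := by
        intro j hj hji u u' h1 h2 h3
        rw [← not_lt]
        intro h4
        have h5 := (hhom u' u (fun l => if l = i then ⟨1, by omega⟩ else ⟨0, by omega⟩)
          (fun l => if l = j then ⟨1, by omega⟩ else ⟨0, by omega⟩) (by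
            intro l
            by_cases hl : l = i
            · subst hl
              rw [if_pos rfl, if_neg (fun h => hji h.symm)]
              refine ⟨⟨fun h => absurd h (not_lt.mpr h2.le), fun h => ?_⟩, ⟨fun _ => ?_, fun _ => h2⟩⟩
              · exact absurd h (by simp)
              · exact Fin.mk_lt_mk.mpr (by norm_num)
            · rw [if_neg hl]
              by_cases hl2 : l = j
              · subst hl2
                rw [if_pos rfl]
                refine ⟨⟨fun _ => ?_, fun _ => h3⟩, ⟨fun h => absurd h (not_lt.mpr h3.le), fun h => ?_⟩⟩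
                · exact Fin.mk_lt_mk.mpr (by norm_num)
                · exact absurd h (by simp)
              · rw [if_neg hl2, h1 l hl hl2]
                exact ⟨⟨fun h => absurd h (lt_irrefl _), fun h => absurd h (lt_irrefl _)⟩,
                  ⟨fun h => absurd h (lt_irrefl _), fun h => absurd h (lt_irrefl _)⟩⟩)).mp h4
        exact absurd h5 (not_lt.mpr (himax j hj))
      intro η η' hηi
      have hD : 0 < D := lt_of_le_of_lt (Nat.zero_le _) i.isLt
      obtain ⟨u, hu⟩ : ∃ u : Fin D → Fin (D * n' + 2), u = fun j => ⟨D * (η j : ℕ), hlt (η j)⟩ :=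
        ⟨_, rfl⟩
      obtain ⟨u', hu'⟩ : ∃ u : Fin D → Fin (D * n' + 2), u = fun j => ⟨D * (η' j : ℕ), hlt (η' j)⟩ :=
        ⟨_, rfl⟩
      show G (fun j => ⟨D * (η j : ℕ), hlt (η j)⟩) < G (fun j => ⟨D * (η' j : ℕ), hlt (η' j)⟩)
      rw [← hu, ← hu']
      have hui : (u i : ℕ) + D ≤ (u' i : ℕ) := by
        rw [hu, hu']
        show D * (η i : ℕ) + D ≤ D * (η' i : ℕ)
        have h1 : (η i : ℕ) + 1 ≤ (η' i : ℕ) := hηi
        calc D * (η i : ℕ) + D = D * ((η i : ℕ) + 1) := by ring
          _ ≤ D * (η' i : ℕ) := Nat.mul_le_mul_left D h1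
      have hTcard : ∀ T : Finset (Fin D), i ∉ T → T.card < D := by
        intro T hT
        have h1 : (insert i T).card ≤ D := by
          simpa using Finset.card_le_univ (insert i T)
        rw [Finset.card_insert_of_notMem hT] at h1
        omega
      have key : ∀ T : Finset (Fin D), i ∉ T → ∃ w : Fin D → Fin (D * n' + 2),
          (w i : ℕ) = (u i : ℕ) + T.card ∧ (∀ j ∈ T, w j = u' j) ∧
          (∀ j, j ∉ T → j ≠ i → w j = u j) ∧ G u ≤ G w := by
        intro T
        induction T using Finset.induction_on with
        | empty =>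
          intro _
          exact ⟨u, by simp, fun j hj => absurd hj (Finset.notMem_empty j), fun j _ _ => rfl, le_rfl⟩
        | insert j T hj ih =>
          intro hT
          have hij : i ≠ j := fun h => hT (h ▸ Finset.mem_insert_self _ _)
          have hiT : i ∉ T := fun h => hT (Finset.mem_insert_of_mem h)
          obtain ⟨w, hw1, hw2, hw3, hw4⟩ := ih hiT
          have hc := hTcard _ hT
          rw [Finset.card_insert_of_notMem hj] at hc
          have hlt' : (w i : ℕ) + 1 < D * n' + 2 := by
            have := (u' i).isLt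
            omega
          refine ⟨Function.update (Function.update w j (u' j)) i ⟨(w i : ℕ) + 1, hlt'⟩, ?_, ?_, ?_, ?_⟩
          · rw [Function.update_self, Finset.card_insert_of_notMem hj]
            show (w i : ℕ) + 1 = _
            omega
          · intro l hl
            have hli : l ≠ i := fun h => hT (h ▸ hl)
            rw [Function.update_of_ne hli]
            by_cases hlj : l = j
            · rw [hlj, Function.update_self]
            · rw [Function.update_of_ne hlj]
              exact hw2 l ((Finset.mem_insert.mp hl).resolve_left hlj)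
          · intro l hl hli
            have hlj : l ≠ j := fun h => hl (h ▸ Finset.mem_insert_self _ _)
            rw [Function.update_of_ne hli, Function.update_of_ne hlj]
            exact hw3 l (fun h => hl (Finset.mem_insert_of_mem h)) hli
          · refine hw4.trans ?_
            have hup1 : w i < ⟨(w i : ℕ) + 1, hlt'⟩ := by
              show (w i : ℕ) < (w i : ℕ) + 1
              omega
            by_cases hc1 : u' j < w j
            · by_cases hjV : j ∈ V
              · apply hex j hjV hij.symm
                · intro l hli hlj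
                  rw [Function.update_of_ne hli, Function.update_of_ne hlj]
                · rw [Function.update_self]
                  exact hup1
                · rw [Function.update_of_ne hij.symm, Function.update_self]
                  exact hc1
              · have h1 : G w = G (Function.update w j (u' j)) := by
                  apply heq j hjV
                  intro l hl
                  rw [Function.update_of_ne hl]
                rw [h1]
                apply hmono i
                · intro l hl
                  rw [Function.update_of_ne hl]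
                · rw [Function.update_self, Function.update_of_ne hij]
                  exact hup1
            · apply hle
              intro l
              by_cases hli : l = i
              · rw [hli, Function.update_self]
                exact hup1.le
              · rw [Function.update_of_ne hli]
                by_cases hlj : l = j
                · rw [hlj, Function.update_self]
                  exact not_lt.mp hc1
                · rw [Function.update_of_ne hlj]
      obtain ⟨w, hw1, hw2, hw3, hw4⟩ := key (Finset.univ.erase i) (Finset.notMem_erase i _)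
      have hc := hTcard _ (Finset.notMem_erase i Finset.univ)
      refine lt_of_le_of_lt hw4 (hup i hi w u' ?_ ?_)
      · intro l hl
        exact hw2 l (Finset.mem_erase.mpr ⟨hl, Finset.mem_univ l⟩)
      · show (w i : ℕ) < (u' i : ℕ)
        omega

end Pool.Agent.FHQ.H13
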