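import Pool.Agent.FHQ.StmtsO

/-! Squad FHQ, row PR: the product Ramsey theorem for pairs. -/

namespace Pool.Agent.FHQ.H13

open Pool.Agent.FHQ

theorem pr (hR2 : R2Stmt) : PrStmt := by
  intro D
  induction D with
  | zero =>
    intro n' C _
    refine ⟨1, fun col => ⟨fun j => j.elim0, fun j => j.elim0, col (fun _ => 0) (fun _ => 0), ?_⟩⟩
    intro a b _
    have h : ∀ f g : Fin 0 → Fin 1, f = g := fun f g => funext fun j => j.elim0
    rw [h (sg _ a) (fun _ => 0), h (sg _ b) (fun _ => 0)]
  | succ D ih =>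
    intro n' C hC
    obtain ⟨n1, h1⟩ := ih n' C
    have hfin : Finite ((Fin D → Fin n1) → (Fin D → Fin n1) → C) := inferInstance
    obtain ⟨n2, h2⟩ := hR2 ((Fin D → Fin n1) → (Fin D → Fin n1) → C) n'
    refine ⟨max n1 n2, fun col => ?_⟩
    have hl : n1 ≤ max n1 n2 := le_max_left _ _
    have hr : n2 ≤ max n1 n2 := le_max_right _ _
    obtain ⟨s0, hs0, f, hf⟩ := h2 (fun a0 b0 => fun a b =>
      col (Fin.cons (Fin.castLE hr a0) (fun j => Fin.castLE hl (a j)))
        (Fin.cons (Fin.castLE hr b0) (fun j => Fin.castLE hl (b j))))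
    obtain ⟨s, hs, c, hc⟩ := h1 f
    refine ⟨Fin.cons (fun a => Fin.castLE hr (s0 a)) (fun j a => Fin.castLE hl (s j a)), ?_, c, ?_⟩
    · intro j
      refine Fin.cases ?_ ?_ j
      · intro a b hab
        show Fin.castLE hr (s0 a) < Fin.castLE hr (s0 b)
        exact hs0 hab
      · intro i a b hab
        show Fin.castLE hl (s i a) < Fin.castLE hl (s i b)
        exact hs i hab
    · intro a b hab
      have e : ∀ a : Fin (D + 1) → Fin n',
          sg (Fin.cons (fun a => Fin.castLE hr (s0 a)) (fun j a => Fin.castLE hl (s j a))) a =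
          (Fin.cons (Fin.castLE hr (s0 (a 0))) (fun j => Fin.castLE hl (s j (a j.succ))) :
            Fin (D + 1) → Fin (max n1 n2)) := by
        intro a
        funext j
        refine Fin.cases ?_ ?_ j
        · rfl
        · intro i
          rfl
      rw [e a, e b]
      have h3 := congrFun (congrFun (hf (a 0) (b 0) (hab 0)) (fun j => s j (a j.succ)))
        (fun j => s j (b j.succ))
      have h4 := hc (fun j => a j.succ) (fun j => b j.succ) (fun j => hab j.succ)
      exact h3.trans h4

end Pool.Agent.FHQ.H13
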